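import Pool.Agent.Y116.UV.Defs

/-!
# The complexity of an action of a diagonalizable group: definitions
-/

set_option autoImplicit false

namespace Pool.Agent.U738.CX

open CategoryTheory AlgebraicGeometry Pool.Agent.Y116.UV

section defs

variable {R A Γ : Type} [CommRing R] [CommRing A] [Algebra R A] [AddCommGroup Γ] [DecidableEq Γ]

/-- The complexity of the grading (of the action of the diagonalizable group `D(Γ)` on `Spec A`) is at
most `N`: for every homogeneous element `f` the degree zero part of `A[1 / f]`, which is the ring of
functions on the quotient of the invariant open subscheme `D(f)` by the group, has Krull dimension at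
most `N`. -/
def ComplexityLE (𝒜 : Γ → Submodule R A) [GradedAlgebra 𝒜] (N : WithBot ℕ∞) : Prop :=
  ∀ (γ : Γ) (f : A), f ∈ 𝒜 γ → ringKrullDim (HomogeneousLocalization.Away 𝒜 f) ≤ N

end defs

end Pool.Agent.U738.CX
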