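import Mathlib

/-!
# Dimension and algebraic dependence

If any `N + 1` elements of an algebra over a field are algebraically dependent, then its dimension is at
most `N`.  For a graded domain `A` over a field, the parts of degree zero of the rings `A[1 / f]` have
dimension at most `N` if the field of invariant rational functions (quotients of homogeneous elements of
the same degree) has transcendence degree at most `N`.
-/

set_option autoImplicit false

open MvPolynomial

namespace Pool.Agent.U738.CX

section chain

variable {k D : Type} [Field k] [CommRing D] [Algebra k D]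

lemma aeval_cons {n : ℕ} (y : Fin n → D) (x : D) (F : MvPolynomial (Fin (n + 1)) k) :
    aeval (Fin.cons x y : Fin (n + 1) → D) F =
      Polynomial.eval₂ ((aeval y : MvPolynomial (Fin n) k →ₐ[k] D) : MvPolynomial (Fin n) k →+* D) x
        (finSuccEquiv k n F) := by
  induction F using MvPolynomial.induction_on with
  | C a =>
    rw [← algebraMap_eq, AlgHom.commutes, AlgEquiv.commutes, Polynomial.algebraMap_apply,
      Polynomial.eval₂_C, RingHom.coe_coe, AlgHom.commutes]
  | add p q hp hq => rw [map_add, map_add, Polynomial.eval₂_add, hp, hq]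
  | mul_X p i hp =>
    rw [map_mul, map_mul, Polynomial.eval₂_mul, hp, aeval_X]
    congr 1
    refine Fin.cases ?_ (fun j => ?_) i
    · rw [finSuccEquiv_X_zero, Polynomial.eval₂_X, Fin.cons_zero]
    · rw [finSuccEquiv_X_succ, Polynomial.eval₂_C, Fin.cons_succ, RingHom.coe_coe, aeval_X]

/-- the lowest coefficient of a polynomial relation -/
lemma eval_low {S : Type} [CommRing S] (φ : S →+* D) (x : D) (f : Polynomial S) :
    ∃ (m : ℕ) (r : D), Polynomial.eval₂ φ x f = x ^ m * (φ f.trailingCoeff + x * r) := by
  obtain ⟨q, hq⟩ : Polynomial.X ^ f.natTrailingDegree ∣ f := by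
    rw [Polynomial.X_pow_dvd_iff]
    intro d hd
    exact Polynomial.coeff_eq_zero_of_lt_natTrailingDegree hd
  refine ⟨f.natTrailingDegree, Polynomial.eval₂ φ x q.divX, ?_⟩
  have h1 : f.trailingCoeff = q.coeff 0 := by
    rw [Polynomial.trailingCoeff]
    conv_lhs => rw [hq]
    have h2 := Polynomial.coeff_X_pow_mul q f.natTrailingDegree 0
    rw [zero_add] at h2
    rw [← hq]
    rw [← hq] at h2
    exact h2
  have h3 : Polynomial.eval₂ φ x f = x ^ f.natTrailingDegree * Polynomial.eval₂ φ x q := by
    conv_lhs => rw [hq]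
    rw [Polynomial.eval₂_mul, Polynomial.eval₂_pow, Polynomial.eval₂_X]
  have h4 : Polynomial.eval₂ φ x q = φ (q.coeff 0) + x * Polynomial.eval₂ φ x q.divX := by
    conv_lhs => rw [← Polynomial.divX_mul_X_add q]
    rw [Polynomial.eval₂_add, Polynomial.eval₂_mul, Polynomial.eval₂_X, Polynomial.eval₂_C]
    ring
  rw [h3, h4, h1]

/-- chains of prime ideals and algebraic dependence -/
lemma chain_lt (n : ℕ) : ∀ s : LTSeries (PrimeSpectrum D),
    (∀ y : Fin n → D, ∃ F : MvPolynomial (Fin n) k, F ≠ 0 ∧ aeval y F ∈ s.head.asIdeal) →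
      s.length < n := by
  induction n with
  | zero =>
    intro s h
    exfalso
    obtain ⟨F, hF, h1⟩ := h Fin.elim0
    have h2 : F = C (coeff 0 F) := eq_C_of_isEmpty F
    have h3 : coeff 0 F ≠ 0 := by
      intro h4
      rw [h4, C_0] at h2
      exact hF h2
    rw [h2, ← algebraMap_eq, AlgHom.commutes] at h1
    exact s.head.isPrime.ne_top (Ideal.eq_top_of_isUnit_mem _ h1
      ((isUnit_iff_ne_zero.mpr h3).map (algebraMap k D)))
  | succ n ih =>
    intro s h
    by_cases hl : s.length = 0
    · omega
    · have h0 : s.head < (s.tail hl).head := by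
        rw [RelSeries.head_tail]
        have h1 := s.strictMono (show (0 : Fin (s.length + 1)) < 1 from by
          rw [Fin.lt_def, Fin.val_zero, Fin.val_one', Nat.mod_eq_of_lt (by omega)]
          exact Nat.one_pos)
        exact h1
      obtain ⟨hle, x, hx1, hx0⟩ := SetLike.lt_iff_le_and_exists.mp
        ((PrimeSpectrum.asIdeal_lt_asIdeal _ _).mpr h0)
      have h2 := ih (s.tail hl) (by
        intro y
        obtain ⟨F, hF, h3⟩ := h (Fin.cons x y)
        have hf : finSuccEquiv k n F ≠ 0 := by
          intro h4
          exact hF ((finSuccEquiv k n).injective (by rw [h4, map_zero]))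
        obtain ⟨m, r, h5⟩ := eval_low
          ((aeval y : MvPolynomial (Fin n) k →ₐ[k] D) : MvPolynomial (Fin n) k →+* D) x
          (finSuccEquiv k n F)
        refine ⟨(finSuccEquiv k n F).trailingCoeff, ?_, ?_⟩
        · exact Polynomial.trailingCoeff_nonzero_iff_nonzero.mpr hf
        · rw [aeval_cons, h5] at h3
          have h6 := (s.head.isPrime.mem_or_mem h3).resolve_left
            fun h7 => hx0 (s.head.isPrime.mem_of_pow_mem m h7)
          have h7 := hle h6
          have h8 : x * r ∈ (s.tail hl).head.asIdeal := Ideal.mul_mem_right _ _ hx1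
          exact (Ideal.add_mem_iff_left _ h8).mp h7)
      rw [RelSeries.tail_length] at h2
      omega

/-- **Dimension and algebraic dependence.** -/
theorem dim_le_of_dependent (N : ℕ)
    (h : ∀ y : Fin (N + 1) → D, ∃ F : MvPolynomial (Fin (N + 1)) k, F ≠ 0 ∧ aeval y F = 0) :
    ringKrullDim D ≤ N := by
  refine iSup_le fun s => ?_
  have h1 := chain_lt (k := k) (N + 1) s fun y => by
    obtain ⟨F, hF, h2⟩ := h y
    exact ⟨F, hF, by rw [h2]; exact Ideal.zero_mem _⟩
  exact_mod_cast Nat.lt_succ_iff.mp h1

end chain

end Pool.Agent.U738.CX
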