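import Pool.Agent.U738.CX.Main
import Pool.Agent.U738.CX.Dim
import Pool.Agent.U738.CX.FamDefs

/-!
# The complexity of an action of a diagonalizable group

Properties of the schemes of dimension at most `N` and of the affine schemes with an action of a
diagonalizable group of complexity at most `N`.
-/

set_option autoImplicit false

namespace Pool.Agent.U738.CX

open CategoryTheory AlgebraicGeometry Pool.Agent.Y116.UV Pool.Agent.U738.BN

/-- `P` is true for the spectra of the `R`-algebras of finite type with a grading by some commutative
group of complexity at most `N`. -/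
def ForComplexity {R : Type} [CommRing R] (N : WithBot ℕ∞) (P : Sch R → Prop) : Prop :=
  ∀ (A : Type) [CommRing A] [Algebra R A] [Algebra.FiniteType R A] (Γ : Type) [AddCommGroup Γ]
    [DecidableEq Γ] (𝒜 : Γ → Submodule R A) [GradedAlgebra 𝒜], ComplexityLE 𝒜 N → P (aff R A)

/-- `P` is true for the spectra of the `R`-algebras of finite type of dimension at most `N`. -/
def ForDimension {R : Type} [CommRing R] (N : WithBot ℕ∞) (P : Sch R → Prop) : Prop :=
  ∀ (A : Type) [CommRing A] [Algebra R A] [Algebra.FiniteType R A], ringKrullDim A ≤ N →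
    P (aff R A)

section trivial

variable {R A : Type} [CommRing R] [CommRing A] [Algebra R A]

/-- the trivial grading -/
@[reducible] def trivGr (R A : Type) [CommRing R] [CommRing A] [Algebra R A] :
    PUnit.{1} → Submodule R A := fun _ => ⊤

/-- the trivial grading is a grading -/
@[instance_reducible] noncomputable def trivGraded : GradedAlgebra (trivGr R A) where
  one_mem := Submodule.mem_top
  mul_mem _ _ _ _ _ _ := Submodule.mem_top
  decompose' a := DirectSum.of (fun i => trivGr R A i) PUnit.unit ⟨a, Submodule.mem_top⟩
  left_inv a := by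
    rw [DirectSum.coeAddMonoidHom_of]
  right_inv x := by
    induction x using DirectSum.induction_on with
    | zero =>
      rw [map_zero]
      exact map_zero (DirectSum.of (fun i => trivGr R A i) PUnit.unit)
    | of i x =>
      rw [DirectSum.coeAddMonoidHom_of]
    | add x y hx hy =>
      rw [map_add]
      exact (map_add (DirectSum.of (fun i => trivGr R A i) PUnit.unit) _ _).trans
        (congrArg₂ (· + ·) hx hy)

lemma dim_loc_le (f : A) : ringKrullDim (Localization.Away f) ≤ ringKrullDim A := by
  have h := lc_loc (lc_base A) f (Localization.Away (algebraMap A A f))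
  have : Module.Finite (Localization.Away (algebraMap A A f)) (Localization.Away (algebraMap A A f)) :=
    Module.Finite.self _
  exact dim_lc h (Localization.Away (algebraMap A A f))

lemma triv_complexity {N : WithBot ℕ∞} (hA : ringKrullDim A ≤ N) :
    letI := trivGraded (R := R) (A := A); ComplexityLE (trivGr R A) N := by
  let _ := trivGraded (R := R) (A := A)
  intro γ f hf
  refine le_trans ?_ ((dim_loc_le f).trans hA)
  let φ : HomogeneousLocalization.Away (trivGr R A) f →+* Localization.Away f := algebraMap _ _
  have hφ : Function.Bijective φ := by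
    refine ⟨HomogeneousLocalization.val_injective (𝒜 := trivGr R A) (Submonoid.powers f),
      fun x => ?_⟩
    obtain ⟨a, s, hx⟩ := IsLocalization.exists_mk'_eq (Submonoid.powers f) x
    let z : HomogeneousLocalization.Away (trivGr R A) f :=
      HomogeneousLocalization.mk ⟨PUnit.unit, ⟨a, Submodule.mem_top⟩, ⟨s, Submodule.mem_top⟩, s.2⟩
    refine ⟨z, ?_⟩
    change z.val = x
    rw [HomogeneousLocalization.val_mk, ← hx, Localization.mk_eq_mk']
  exact (ringKrullDim_eq_of_ringEquiv (RingEquiv.ofBijective φ hφ)).le

end trivial

section main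

variable {R : Type} [CommRing R] {sep : Prop} {P : Sch R → Prop} {N : WithBot ℕ∞}

/-- **Complexity and dimension.** -/
theorem complexity_iff [IsNoetherianRing R]
    (iso : ∀ {X Y : Sch R}, FT sep X → Nonempty (X ≅ Y) → P X → P Y)
    (total : ∀ {Z X U : Sch R} (i : Z ⟶ X) (j : U ⟶ X), FT sep X → IsTriple i j → P Z → P U → P X)
    (times : ∀ (A : Type) [CommRing A] [Algebra R A] [Algebra.FiniteType R A],
      P (aff R A) → P (aff R (LaurentPolynomial A))) : ForDimension N P ↔ ForComplexity N P := by
  constructor
  · intro h A _ _ _ Γ _ _ 𝒜 _ hd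
    exact graded_P (sep := sep) ⟨iso, total, times, h⟩ 𝒜 hd
  · intro h A _ _ _ hA
    let _ := trivGraded (R := R) (A := A)
    exact h A PUnit.{1} (trivGr R A) (triv_complexity hA)

/-- **Actions of complexity at most `N`.** -/
theorem for_complexity [IsNoetherianRing R] (hP : PosD sep P N) : ForComplexity N P :=
  (complexity_iff hP.iso hP.total hP.times).mp hP.dim

end main

section classical

variable {k A Γ : Type} [Field k] [CommRing A] [IsDomain A] [Algebra k A] [AddCommGroup Γ]
  [DecidableEq Γ]

/-- The element `x` of the fraction field of `A` is an invariant rational function: a quotient of two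
homogeneous elements of the same degree. -/
def IsInvariant (𝒜 : Γ → Submodule k A) (x : FractionRing A) : Prop :=
  ∃ (γ : Γ) (a b : A), a ∈ 𝒜 γ ∧ b ∈ 𝒜 γ ∧ b ≠ 0 ∧
    x * algebraMap A (FractionRing A) b = algebraMap A (FractionRing A) a

/-- The field of the invariant rational functions on `Spec A` has transcendence degree at most `N` over
`k`. -/
def InvariantTrdegLE (𝒜 : Γ → Submodule k A) (N : ℕ) : Prop :=
  ∀ x : Fin (N + 1) → FractionRing A, (∀ i, IsInvariant 𝒜 (x i)) → ¬ AlgebraicIndependent k x

/-- For integral schemes over a field: the complexity is at most the transcendence degree of the field of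
invariant rational functions. -/
theorem complexity_of_trdeg (𝒜 : Γ → Submodule k A) [GradedAlgebra 𝒜] {N : ℕ}
    (h : InvariantTrdegLE 𝒜 N) : ComplexityLE 𝒜 N := by
  intro γ f hf
  by_cases hf0 : f = 0
  · have h1 : Subsingleton (HomogeneousLocalization.Away 𝒜 f) :=
      HomogeneousLocalization.subsingleton 𝒜 ⟨1, by
        change f ^ 1 = 0
        rw [hf0, pow_one]⟩
    rw [ringKrullDim_eq_bot_of_subsingleton]
    exact bot_le
  let _ : Algebra k (HomogeneousLocalization.Away 𝒜 f) :=
    ((HomogeneousLocalization.fromZeroRingHom 𝒜 (Submonoid.powers f)).comp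
      (algebraMap k (𝒜 0))).toAlgebra
  have hu : IsUnit (algebraMap A (FractionRing A) f) := by
    rw [isUnit_iff_ne_zero]
    exact (map_ne_zero_iff _ (IsFractionRing.injective A (FractionRing A))).mpr hf0
  let φ : Localization.Away f →+* FractionRing A :=
    IsLocalization.Away.lift (S := Localization.Away f) f (g := algebraMap A (FractionRing A)) hu
  have hφ : ∀ a, φ (algebraMap A _ a) = algebraMap A (FractionRing A) a := fun a =>
    IsLocalization.Away.lift_eq f hu a
  let ψ : HomogeneousLocalization.Away 𝒜 f →+* FractionRing A :=
    φ.comp (algebraMap _ (Localization.Away f))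
  have hψ : ∀ (n : ℕ) (a : A) (ha : a ∈ 𝒜 (n • γ)),
      ψ (HomogeneousLocalization.Away.mk 𝒜 hf n a ha) * algebraMap A (FractionRing A) (f ^ n) =
        algebraMap A (FractionRing A) a := by
    intro n a ha
    let y : Submonoid.powers f := ⟨f ^ n, ⟨n, rfl⟩⟩
    have h1 : (Localization.mk a y : Localization.Away f) *
        algebraMap A (Localization.Away f) (f ^ n) = algebraMap A (Localization.Away f) a := by
      rw [Localization.mk_eq_mk']
      exact IsLocalization.mk'_spec (Localization.Away f) a y
    have h2 : ψ (HomogeneousLocalization.Away.mk 𝒜 hf n a ha) =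
        φ (HomogeneousLocalization.Away.mk 𝒜 hf n a ha).val := rfl
    rw [h2, HomogeneousLocalization.Away.val_mk, ← hφ (f ^ n), ← hφ a, ← h1, ← map_mul]
  have hφinj : Function.Injective φ := by
    rw [injective_iff_map_eq_zero]
    intro x hx
    obtain ⟨a, s, rfl⟩ := IsLocalization.exists_mk'_eq (Submonoid.powers f) x
    have h1 : IsLocalization.mk' (Localization.Away f) a s *
        algebraMap A (Localization.Away f) s = algebraMap A (Localization.Away f) a :=
      IsLocalization.mk'_spec _ a s
    have h2 : φ (algebraMap A (Localization.Away f) a) = 0 := by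
      rw [← h1, map_mul, hx, zero_mul]
    rw [hφ] at h2
    have h3 : a = 0 := (map_eq_zero_iff _ (IsFractionRing.injective A (FractionRing A))).mp h2
    rw [h3, IsLocalization.mk'_zero]
  have hval : Function.Injective
      (algebraMap (HomogeneousLocalization.Away 𝒜 f) (Localization.Away f)) :=
    HomogeneousLocalization.val_injective (𝒜 := 𝒜) (x := Submonoid.powers f)
  have hinj : Function.Injective ψ := hφinj.comp hval
  let ψ' : HomogeneousLocalization.Away 𝒜 f →ₐ[k] FractionRing A :=
    { ψ with
      commutes' := fun r => by
        change φ (HomogeneousLocalization.val (HomogeneousLocalization.mk _)) = _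
        rw [HomogeneousLocalization.val_mk]
        change φ (Localization.mk (algebraMap k A r) 1) = _
        rw [Localization.mk_one_eq_algebraMap, hφ, ← IsScalarTower.algebraMap_apply] }
  refine dim_le_of_dependent (k := k) N fun y => ?_
  have h1 := h (fun i => ψ (y i)) (by
    intro i
    obtain ⟨n, a, ha, h2⟩ := HomogeneousLocalization.Away.mk_surjective 𝒜 hf (y i)
    refine ⟨n • γ, a, f ^ n, ha, SetLike.pow_mem_graded n hf, pow_ne_zero n hf0, ?_⟩
    rw [← h2]
    exact hψ n a ha)
  rw [algebraicIndependent_iff] at h1
  push Not at h1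
  obtain ⟨F, hF, hF0⟩ := h1
  refine ⟨F, hF0, hinj ?_⟩
  rw [map_zero, ← hF]
  exact MvPolynomial.comp_aeval_apply (f := y) ψ' F

end classical

end Pool.Agent.U738.CX
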