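import Pool.Agent.U738.BN.Grp

/-!
# Gradings with many homogeneous units

`p γ`, `γ ∈ Γ`, is an independent family of submodules of the commutative ring `C` which is compatible with
products, and `V` is a finitely generated group of units of `C` which are homogeneous, with homogeneous
inverses.  If `C` is spanned by `V`, then `C` is a twisted group algebra over its part `B` of degree zero,
and `B` is of finite type.
-/

set_option autoImplicit false

namespace Pool.Agent.U738.CX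

open Pool.Agent.U738.BN

variable {R C Γ : Type} [CommRing R] [CommRing C] [Algebra R C] [AddCommGroup Γ]

/-- An independent family of submodules which is compatible with products. -/
structure IsGr (p : Γ → Submodule R C) : Prop where
  one : (1 : C) ∈ p 0
  mul : ∀ {γ γ' : Γ} {x y : C}, x ∈ p γ → y ∈ p γ' → x * y ∈ p (γ + γ')
  indep : ∀ (s : Finset Γ) (x : Γ → C), (∀ γ ∈ s, x γ ∈ p γ) → ∑ γ ∈ s, x γ = 0 →
    ∀ γ ∈ s, x γ = 0

variable {p : Γ → Submodule R C} (hp : IsGr p)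

include hp

/-- The part of degree zero. -/
def zeroPart : Subalgebra R C where
  carrier := p 0
  mul_mem' := by
    intro x y hx hy
    have h := hp.mul hx hy
    rwa [add_zero] at h
  one_mem' := hp.one
  add_mem' := (p 0).add_mem
  zero_mem' := (p 0).zero_mem
  algebraMap_mem' r := by
    rw [Algebra.algebraMap_eq_smul_one]
    exact (p 0).smul_mem r hp.one

lemma mem_zeroPart {x : C} : x ∈ zeroPart hp ↔ x ∈ p 0 := Iff.rfl

/-- The homogeneous units. -/
def homU : Subgroup Cˣ where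
  carrier := {u | ∃ γ, (u : C) ∈ p γ ∧ ((u⁻¹ : Cˣ) : C) ∈ p (-γ)}
  mul_mem' := by
    rintro u v ⟨γ, h1, h2⟩ ⟨γ', h3, h4⟩
    refine ⟨γ + γ', hp.mul h1 h3, ?_⟩
    have h := hp.mul h2 h4
    rw [← neg_add] at h
    have e : ((u * v)⁻¹ : Cˣ) = u⁻¹ * v⁻¹ := mul_inv u v
    rw [e]
    exact h
  one_mem' := ⟨0, hp.one, by
    rw [neg_zero, inv_one]
    exact hp.one⟩
  inv_mem' := by
    rintro u ⟨γ, h1, h2⟩
    refine ⟨-γ, h2, ?_⟩
    rw [neg_neg, inv_inv]
    exact h1

/-- the units of the part of degree zero -/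
noncomputable def zeroU : (zeroPart hp)ˣ →* Cˣ := Units.map ((zeroPart hp).val : zeroPart hp →* C)

lemma zeroU_coe (c : (zeroPart hp)ˣ) : ((zeroU hp c : Cˣ) : C) = ((c : zeroPart hp) : C) := rfl

lemma zeroU_inv (c : (zeroPart hp)ˣ) :
    (((zeroU hp c)⁻¹ : Cˣ) : C) = (((c⁻¹ : (zeroPart hp)ˣ) : zeroPart hp) : C) := rfl

lemma zeroU_mem (c : (zeroPart hp)ˣ) : (zeroU hp c : C) ∈ p 0 ∧
    (((zeroU hp c)⁻¹ : Cˣ) : C) ∈ p 0 :=
  ⟨(c : zeroPart hp).2, ((c⁻¹ : (zeroPart hp)ˣ) : zeroPart hp).2⟩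

lemma exists_zeroU (u : Cˣ) (h1 : (u : C) ∈ p 0) (h2 : ((u⁻¹ : Cˣ) : C) ∈ p 0) :
    ∃ c, zeroU hp c = u :=
  ⟨⟨⟨u, h1⟩, ⟨((u⁻¹ : Cˣ) : C), h2⟩, Subtype.ext (Units.mul_inv u),
    Subtype.ext (Units.inv_mul u)⟩, Units.ext rfl⟩

/-- two homogeneous units of the same degree -/
lemma same_degree {u v : Cˣ} {γ : Γ} (hu : (u : C) ∈ p γ) (hu' : ((u⁻¹ : Cˣ) : C) ∈ p (-γ))
    (hv : (v : C) ∈ p γ) (hv' : ((v⁻¹ : Cˣ) : C) ∈ p (-γ)) : ∃ c, u = zeroU hp c * v := by
  obtain ⟨c, hc⟩ := exists_zeroU hp (u * v⁻¹) (by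
    have h := hp.mul hu hv'
    rwa [add_neg_cancel] at h) (by
    have h := hp.mul hu' hv
    rw [neg_add_cancel] at h
    rw [mul_inv, inv_inv]
    exact h)
  exact ⟨c, by rw [hc, inv_mul_cancel_right]⟩

variable (V : Subgroup Cˣ)

/-- the group generated by `V` and the units of degree zero -/
noncomputable def bigG : Subgroup Cˣ := V ⊔ (zeroU hp).range

/-- the inclusion of the units of degree zero -/
noncomputable def thG : (zeroPart hp)ˣ →* bigG hp V :=
  (zeroU hp).codRestrict (bigG hp V) fun c => Subgroup.mem_sup_right ⟨c, rfl⟩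

lemma thG_coe (c : (zeroPart hp)ˣ) : (thG hp V c : Cˣ) = zeroU hp c := rfl

variable (hV : V ≤ homU hp)

include hV in
lemma bigG_le : bigG hp V ≤ homU hp := by
  refine sup_le hV ?_
  rintro _ ⟨c, rfl⟩
  have h := zeroU_mem hp c
  refine ⟨0, h.1, ?_⟩
  rw [neg_zero]
  exact h.2

lemma fg_quot (hfg : Group.FG V) : Group.FG (bigG hp V ⧸ (thG hp V).range) := by
  refine Group.fg_of_surjective (G := V)
    (f := (QuotientGroup.mk' (thG hp V).range).comp (Subgroup.inclusion le_sup_left)) ?_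
  intro x
  obtain ⟨⟨u, hu⟩, rfl⟩ := QuotientGroup.mk'_surjective _ x
  obtain ⟨v, hv, w, ⟨c, rfl⟩, rfl⟩ := Subgroup.mem_sup.mp hu
  refine ⟨⟨v, hv⟩, ?_⟩
  change QuotientGroup.mk _ = QuotientGroup.mk _
  rw [QuotientGroup.eq]
  refine ⟨c, ?_⟩
  apply Subtype.ext
  change zeroU hp c = v⁻¹ * (v * zeroU hp c)
  rw [inv_mul_cancel_left]

/-- the map from the twisted group algebra -/
noncomputable def twMap : Tw (thG hp V) →ₐ[zeroPart hp] C :=
  twLift (thG hp V) ((Units.coeHom C).comp (bigG hp V).subtype) fun _ => rfl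

lemma twMap_cls (u : bigG hp V) : twMap hp V (cls (thG hp V) u) = ((u : Cˣ) : C) :=
  twLift_cls _ _ _ _

lemma twMap_surj (hs : Submodule.span R {x : C | ∃ v ∈ V, (v : C) = x} = ⊤) :
    Function.Surjective (twMap hp V) := by
  intro x
  have hx : x ∈ Submodule.span R {x : C | ∃ v ∈ V, (v : C) = x} := by
    rw [hs]
    trivial
  induction hx using Submodule.span_induction with
  | mem x h =>
    obtain ⟨v, hv, rfl⟩ := h
    exact ⟨cls (thG hp V) ⟨v, Subgroup.mem_sup_left hv⟩, twMap_cls hp V _⟩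
  | zero => exact ⟨0, map_zero _⟩
  | add x y _ _ hx hy =>
    obtain ⟨a, rfl⟩ := hx
    obtain ⟨b, rfl⟩ := hy
    exact ⟨a + b, map_add _ _ _⟩
  | smul r x _ hx =>
    obtain ⟨a, rfl⟩ := hx
    refine ⟨algebraMap R (zeroPart hp) r • a, ?_⟩
    rw [map_smul, algebraMap_smul]

/-- degrees of elements of the group -/
def HasDeg (u : bigG hp V) (γ : Γ) : Prop :=
  ((u : Cˣ) : C) ∈ p γ ∧ (((u : Cˣ)⁻¹ : Cˣ) : C) ∈ p (-γ)

include hV in
lemma twMap_inj : Function.Injective (twMap hp V) := by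
  classical
  rw [injective_iff_map_eq_zero]
  intro x hx
  have hdeg : ∀ u : bigG hp V, ∃ γ, HasDeg hp V u γ := fun u => bigG_le hp V hV u.2
  let D : Type := {γ : Γ // ∃ u : bigG hp V, HasDeg hp V u γ}
  choose rep hrep using fun d : D => d.2
  have hspan : x ∈ Submodule.span (zeroPart hp) (Set.range fun d : D => cls (thG hp V) (rep d)) := by
    have h1 : Submodule.span (zeroPart hp) (Set.range (cls (thG hp V))) ≤
        Submodule.span (zeroPart hp) (Set.range fun d : D => cls (thG hp V) (rep d)) := by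
      rw [Submodule.span_le]
      rintro _ ⟨u, rfl⟩
      obtain ⟨γ, hγ⟩ := hdeg u
      have h2 := hrep ⟨γ, u, hγ⟩
      obtain ⟨c, hc⟩ := same_degree hp hγ.1 hγ.2 h2.1 h2.2
      have h3 : u = thG hp V c * rep ⟨γ, u, hγ⟩ := Subtype.ext hc
      rw [h3, map_mul, cls_theta, ← Algebra.smul_def]
      exact Submodule.smul_mem _ _ (Submodule.subset_span ⟨⟨γ, u, hγ⟩, rfl⟩)
    rw [tw_span] at h1
    exact h1 trivial
  obtain ⟨c, hc⟩ := Finsupp.mem_span_range_iff_exists_finsupp.mp hspan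
  have hsum : ∑ d ∈ c.support, ((c d : zeroPart hp) : C) * ((rep d : Cˣ) : C) = 0 := by
    rw [← hx, ← hc, Finsupp.sum, map_sum]
    refine Finset.sum_congr rfl fun d _ => ?_
    rw [map_smul, twMap_cls]
    rfl
  let z : Γ → C := fun γ => if h : ∃ u : bigG hp V, HasDeg hp V u γ then
    ((c ⟨γ, h⟩ : zeroPart hp) : C) * ((rep ⟨γ, h⟩ : Cˣ) : C) else 0
  have hz : ∀ d : D, z d.1 = ((c d : zeroPart hp) : C) * ((rep d : Cˣ) : C) := by
    intro d
    exact dif_pos d.2
  have h4 := hp.indep (c.support.map (Function.Embedding.subtype _)) z (by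
    intro γ hγ
    obtain ⟨d, _, rfl⟩ := Finset.mem_map.mp hγ
    change z d.1 ∈ p d.1
    rw [hz]
    have h := hp.mul (c d).2 (hrep d).1
    rwa [zero_add] at h) (by
    rw [Finset.sum_map]
    rw [← hsum]
    exact Finset.sum_congr rfl fun d _ => hz d)
  have h5 : c = 0 := by
    ext1 d
    by_cases hd : d ∈ c.support
    · have h6 := h4 d.1 (Finset.mem_map.mpr ⟨d, hd, rfl⟩)
      rw [hz] at h6
      have h7 : ((c d : zeroPart hp) : C) = 0 := (Units.isUnit _).mul_left_eq_zero.mp h6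
      exact Subtype.ext h7
    · exact Finsupp.notMem_support_iff.mp hd
  rw [← hc, h5, Finsupp.sum_zero_index]

/-- The ring is a twisted group algebra over the part of degree zero. -/
noncomputable def twEquiv (hV : V ≤ homU hp)
    (hs : Submodule.span R {x : C | ∃ v ∈ V, (v : C) = x} = ⊤) :
    Tw (thG hp V) ≃ₐ[zeroPart hp] C :=
  AlgEquiv.ofBijective (twMap hp V) ⟨twMap_inj hp V hV, twMap_surj hp V hs⟩

end Pool.Agent.U738.CX
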