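import Pool.Agent.U738.CX.Part

/-!
# Algebras with a grading of small complexity

Let `A` be an algebra of finite type over the noetherian ring `R` with a grading by a commutative group
`Γ`, that is with an action of the diagonalizable group `D(Γ)` on `Spec A`.  If the parts of degree zero of
the rings `A[1 / f]`, for all homogeneous elements `f`, have dimension at most `N`, then every property
with `PosD sep P N` is true for `Spec A`.
-/

set_option autoImplicit false

namespace Pool.Agent.U738.CX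

open CategoryTheory AlgebraicGeometry Pool.Agent.Y116.UV Pool.Agent.U738.BN

variable {R : Type} [CommRing R] {sep : Prop} {P : Sch R → Prop} {N : WithBot ℕ∞}

/-- the case of a ring spanned by homogeneous units -/
theorem unit_graded (hP : PosD sep P N) {C Γ : Type} [CommRing C] [Algebra R C] [AddCommGroup Γ]
    {p : Γ → Submodule R C} (hp : IsGr p) (V : Subgroup Cˣ) (hV : V ≤ homU hp)
    (hs : Submodule.span R {x : C | ∃ v ∈ V, (v : C) = x} = ⊤) (hfg : Group.FG V)
    (hd : ringKrullDim (zeroPart hp) ≤ N) : P (aff R C) := by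
  have hft : Algebra.FiniteType R (zeroPart hp) := ft_zeroPart hp V hV hs hfg
  have h1 := posR_dn hP (zeroPart hp) hd
  have hQ : Pos sep (dn R P : Sch (zeroPart hp) → Prop) :=
    ⟨h1.iso, h1.total, h1.times, fun A _ _ _ => h1.quasi ⊥ 1 (zeroPart hp) A
      (lc_base (zeroPart hp))⟩
  obtain ⟨h2, h3⟩ := tw_fg hQ (thG hp V) (fg_quot hp V hfg)
  have h4 := pos_alg hQ (twEquiv hp V hV hs) h3
  have h5 : Algebra.FiniteType (zeroPart hp) C := Algebra.FiniteType.equiv h2 (twEquiv hp V hV hs)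
  exact hP.iso (ft_down R (ft_aff sep)) ⟨downAff R C⟩ h4

section

variable {A Γ : Type} [CommRing A] [Algebra R A] [AddCommGroup Γ] [DecidableEq Γ]
  (𝒜 : Γ → Submodule R A) [GradedAlgebra 𝒜]

/-- homogeneous generators -/
lemma exists_gens [Algebra.FiniteType R A] : ∃ S : Finset A, Algebra.adjoin R (S : Set A) = ⊤ ∧
    ∀ a ∈ S, ∃ γ, a ∈ 𝒜 γ := by
  classical
  obtain ⟨F, hF⟩ := Algebra.FiniteType.out (R := R) (A := A)
  let ι₀ := Σ (x : F), (DirectSum.decompose 𝒜 x.1).support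
  let x (i : ι₀) : A := ((DirectSum.decompose 𝒜) i.1 i.2).1
  refine ⟨Finset.univ.image x, ?_, by simpa using fun f ↦ ⟨_, (DirectSum.decompose 𝒜 f.1 f.2).2⟩⟩
  rw [← top_le_iff, ← hF, Algebra.adjoin_le_iff]
  intro s hs
  rw [← DirectSum.sum_support_decompose 𝒜 s]
  exact sum_mem fun n hn ↦ Algebra.subset_adjoin (by simpa using ⟨⟨⟨s, hs⟩, n, hn⟩, rfl⟩)

lemma prod_graded (dg : A → Γ) (T : Finset A) (hT : ∀ a ∈ T, a ∈ 𝒜 (dg a)) :
    ∏ a ∈ T, a ∈ 𝒜 (∑ a ∈ T, dg a) := by
  classical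
  induction T using Finset.induction_on with
  | empty =>
    rw [Finset.prod_empty, Finset.sum_empty]
    exact SetLike.one_mem_graded 𝒜
  | insert a T ha ih =>
    rw [Finset.prod_insert ha, Finset.sum_insert ha]
    exact SetLike.mul_mem_graded (hT a (Finset.mem_insert_self a T))
      (ih fun b hb => hT b (Finset.mem_insert_of_mem hb))

variable {𝒜} {J : Ideal A}

/-- products outside of a graded prime ideal -/
lemma prod_notMem (hJ1 : (1 : A) ∉ J) (hp : ∀ a b, (∃ γ, a ∈ 𝒜 γ) → (∃ γ, b ∈ 𝒜 γ) → a * b ∈ J →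
    a ∈ J ∨ b ∈ J) (dg : A → Γ) (T : Finset A) (hT : ∀ a ∈ T, a ∈ 𝒜 (dg a))
    (hTJ : ∀ a ∈ T, a ∉ J) : ∏ a ∈ T, a ∉ J := by
  classical
  induction T using Finset.induction_on with
  | empty =>
    rw [Finset.prod_empty]
    exact hJ1
  | insert a T ha ih =>
    rw [Finset.prod_insert ha]
    intro h
    rcases hp _ _ ⟨_, hT a (Finset.mem_insert_self a T)⟩
      ⟨_, prod_graded 𝒜 dg T fun b hb => hT b (Finset.mem_insert_of_mem hb)⟩ h with h1 | h1
    · exact hTJ a (Finset.mem_insert_self a T) h1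
    · exact ih (fun b hb => hT b (Finset.mem_insert_of_mem hb))
        (fun b hb => hTJ b (Finset.mem_insert_of_mem hb)) h1

variable {h : A} {δ : Γ} {C : Type} [CommRing C] [Algebra A C] [Algebra R C] [IsScalarTower R A C]

/-- divisors of `h` with homogeneous quotient -/
lemma mem_homU_of_dvd (hC : LC J h C) (hJ : J.IsHomogeneous 𝒜) (hh : h ∈ 𝒜 δ) {u : Cˣ} {a b : A}
    {γ : Γ} (hu : (u : C) = algebraMap A C a) (ha : a ∈ 𝒜 γ) (hb : b ∈ 𝒜 (δ - γ))
    (hab : a * b = h) : u ∈ homU (isGr_part hC hJ hh) := by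
  refine ⟨γ, ?_, 1, b, ?_, ?_⟩
  · rw [hu]
    exact isPart_map ha
  · have e : -γ + 1 • δ = δ - γ := by
      rw [one_nsmul]
      abel
    rwa [e]
  · rw [pow_one, ← hab, map_mul, ← hu, Units.inv_mul_cancel_left]

/-- the case of a graded prime ideal and an element which is divisible by all generators which do not
vanish -/
theorem prime_case (hP : PosD sep P N) (hJ : J.IsHomogeneous 𝒜) (S : Finset A)
    (hS : Algebra.adjoin R (S : Set A) = ⊤) (dg : A → Γ) (hdg : ∀ a ∈ S, a ∈ 𝒜 (dg a)) {g : A}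
    (hg : g ∈ 𝒜 δ) (T : Finset A) (hT : ∀ a, a ∈ T ↔ a ∈ S ∧ a ∉ J) {ε : Γ}
    (hh : g * ∏ a ∈ T, a ∈ 𝒜 ε) (hε : ε = δ + ∑ a ∈ T, dg a) (hC : LC J (g * ∏ a ∈ T, a) C)
    (hd : ringKrullDim (HomogeneousLocalization.Away 𝒜 (g * ∏ a ∈ T, a)) ≤ N) :
    P (aff R C) := by
  classical
  set h := g * ∏ a ∈ T, a with hhd
  let W : Set Cˣ := {u | (u : C) = algebraMap A C h ∨ ∃ a ∈ T, (u : C) = algebraMap A C a}
  have hW : W.Finite := by
    have h1 : (insert (algebraMap A C h) ((fun a => algebraMap A C a) '' (T : Set A))).Finite :=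
      (T.finite_toSet.image _).insert _
    refine (h1.preimage (f := (Units.val : Cˣ → C)) (Units.val_injective.injOn)).subset ?_
    rintro u (hu | ⟨a, ha, hu⟩)
    · exact Set.mem_insert_iff.mpr (Or.inl hu)
    · exact Set.mem_insert_iff.mpr (Or.inr ⟨a, ha, hu.symm⟩)
  have := hW.to_subtype
  let V : Subgroup Cˣ := Subgroup.closure W
  have hfg : Group.FG V := Group.closure_finite_fg W
  have hVle : V ≤ homU (isGr_part hC hJ hh) := by
    rw [Subgroup.closure_le]
    rintro u (hu | ⟨a, ha, hu⟩)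
    · refine mem_homU_of_dvd hC hJ hh hu hh (b := 1) ?_ (mul_one _)
      rw [sub_self]
      exact SetLike.one_mem_graded 𝒜
    · have h1 := ((hT a).mp ha).1
      refine mem_homU_of_dvd hC hJ hh hu (hdg a h1) (b := g * ∏ b ∈ T.erase a, b) ?_ ?_
      · have h2 := SetLike.mul_mem_graded hg (prod_graded 𝒜 dg (T.erase a) fun b hb =>
          hdg b ((hT b).mp (Finset.mem_of_mem_erase hb)).1)
        have e : ε - dg a = δ + ∑ b ∈ T.erase a, dg b := by
          rw [hε, ← Finset.add_sum_erase T dg ha]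
          abel
        rwa [e]
      · rw [hhd, ← Finset.mul_prod_erase T (fun b => b) ha]
        ring
  have hunit : ∀ a ∈ T, IsUnit (algebraMap A C a) := by
    intro a ha
    have h1 : IsUnit (algebraMap A C h) := hC.unit
    have h2 : a ∣ h := (Finset.dvd_prod_of_mem (fun b => b) ha).mul_left g
    exact isUnit_of_dvd_unit (map_dvd _ h2) h1
  let M : Submonoid C := V.toSubmonoid.map (Units.coeHom C)
  have hM : ∀ v ∈ V, (v : C) ∈ M := fun v hv => ⟨v, hv, rfl⟩
  have hadj : Algebra.adjoin R (M : Set C) = ⊤ := by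
    have h1 : (⊤ : Subalgebra R A) ≤
        (Algebra.adjoin R (M : Set C)).comap (IsScalarTower.toAlgHom R A C) := by
      rw [← hS, Algebra.adjoin_le_iff]
      intro a ha
      change algebraMap A C a ∈ Algebra.adjoin R (M : Set C)
      by_cases haJ : a ∈ J
      · rw [hC.zero a haJ]
        exact Subalgebra.zero_mem _
      · have haT : a ∈ T := (hT a).mpr ⟨ha, haJ⟩
        obtain ⟨u, hu⟩ := hunit a haT
        rw [← hu]
        exact Algebra.subset_adjoin (hM u (Subgroup.subset_closure (Or.inr ⟨a, haT, hu⟩)))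
    rw [eq_top_iff]
    rintro x -
    obtain ⟨a, k, hx⟩ := hC.num x
    obtain ⟨u, hu⟩ := hC.unit
    have h2 : x = algebraMap A C a * (((u⁻¹ ^ k : Cˣ)) : C) := by
      rw [← hx, ← hu, mul_assoc, ← Units.val_pow_eq_pow_val, ← Units.val_mul, ← mul_pow,
        mul_inv_cancel, one_pow, Units.val_one, mul_one]
    rw [h2]
    refine Subalgebra.mul_mem _ (h1 (trivial : a ∈ (⊤ : Subalgebra R A))) ?_
    have h3 : u ∈ V := Subgroup.subset_closure (Or.inl hu)
    exact Algebra.subset_adjoin (hM _ (V.pow_mem (V.inv_mem h3) k))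
  have hs : Submodule.span R {x : C | ∃ v ∈ V, (v : C) = x} = ⊤ := by
    have h1 : {x : C | ∃ v ∈ V, (v : C) = x} = (M : Set C) := rfl
    have h2 := Algebra.adjoin_eq_span R (M : Set C)
    rw [Submonoid.closure_eq, hadj, Algebra.top_toSubmodule] at h2
    rw [h1, ← h2]
  exact unit_graded hP (isGr_part hC hJ hh) V hVle hs hfg
    ((dim_zeroPart hC hJ hh).trans hd)

end

/-- **Main theorem**, for localizations of graded quotients. -/
theorem graded_LC [IsNoetherianRing R] (hP : PosD sep P N) {A Γ : Type} [CommRing A] [Algebra R A]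
    [Algebra.FiniteType R A] [AddCommGroup Γ] [DecidableEq Γ] (𝒜 : Γ → Submodule R A)
    [GradedAlgebra 𝒜]
    (hd : ∀ (γ : Γ) (f : A), f ∈ 𝒜 γ → ringKrullDim (HomogeneousLocalization.Away 𝒜 f) ≤ N)
    (J : Ideal A) : J.IsHomogeneous 𝒜 → ∀ (δ : Γ) (g : A), g ∈ 𝒜 δ →
      ∀ (C : Type) [CommRing C] [Algebra A C] [Algebra R C] [IsScalarTower R A C], LC J g C →
        P (aff R C) := by
  classical
  have hN : IsNoetherianRing A := Algebra.FiniteType.isNoetherianRing R A
  refine IsNoetherian.induction (P := fun J : Ideal A => J.IsHomogeneous 𝒜 →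
    ∀ (δ : Γ) (g : A), g ∈ 𝒜 δ →
      ∀ (C : Type) [CommRing C] [Algebra A C] [Algebra R C] [IsScalarTower R A C], LC J g C →
        P (aff R C)) ?_ J
  intro J ih hJ δ g hg C _ _ _ _ hC
  have hft1 := hC.finiteType
  have hftC : Algebra.FiniteType R C := Algebra.FiniteType.trans (S := A) inferInstance hft1
  have hsup : ∀ {r : A} {γ : Γ}, r ∈ 𝒜 γ → (J ⊔ Ideal.span {r}).IsHomogeneous 𝒜 := by
    intro r γ hr
    refine hJ.sup (Ideal.homogeneous_span 𝒜 {r} ?_)
    rintro _ rfl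
    exact ⟨γ, hr⟩
  have hclosed : ∀ {r : A} {γ : Γ}, r ∈ 𝒜 γ → r ∉ J →
      P (aff R (C ⧸ Ideal.span {algebraMap A C r})) := by
    intro r γ hr hrJ
    exact ih _ (lt_sup hrJ) (hsup hr) δ g hg _ (lc_quot hC r)
  have hsplit : ∀ r : A, P (aff R (C ⧸ Ideal.span {algebraMap A C r})) →
      P (aff R (Localization.Away (algebraMap A C r))) → P (aff R C) := by
    intro r h1 h2
    exact hP.total _ _ (ft_aff sep) (triple_away (algebraMap A C r)) h1 h2
  by_cases hgJ : g ∈ J
  · have h1 : (0 : C) = algebraMap A C g := (hC.zero g hgJ).symm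
    have h2 : IsUnit (0 : C) := by
      rw [h1]
      exact hC.unit
    have h3 : Subsingleton C := isUnit_zero_iff.mp h2 |> fun e => subsingleton_of_zero_eq_one e
    refine hP.dim C ?_
    rw [ringKrullDim_eq_bot_of_subsingleton]
    exact bot_le
  by_cases hprime : ∀ a b, (∃ γ, a ∈ 𝒜 γ) → (∃ γ, b ∈ 𝒜 γ) → a * b ∈ J → a ∈ J ∨ b ∈ J
  · have hJ1 : (1 : A) ∉ J := fun h1 => hgJ (by
      rw [← mul_one g]
      exact Ideal.mul_mem_left J g h1)
    obtain ⟨S, hS, hSh⟩ := exists_gens (R := R) 𝒜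
    have hdg : ∀ a : A, ∃ γ, a ∈ S → a ∈ 𝒜 γ := by
      intro a
      by_cases ha : a ∈ S
      · obtain ⟨γ, hγ⟩ := hSh a ha
        exact ⟨γ, fun _ => hγ⟩
      · exact ⟨0, fun h => absurd h ha⟩
    choose dg hdg using hdg
    let T := S.filter fun a => a ∉ J
    have hT : ∀ a, a ∈ T ↔ a ∈ S ∧ a ∉ J := fun a => Finset.mem_filter
    have hTg : ∀ a ∈ T, a ∈ 𝒜 (dg a) := fun a ha => hdg a ((hT a).mp ha).1
    have hf : ∏ a ∈ T, a ∈ 𝒜 (∑ a ∈ T, dg a) := prod_graded 𝒜 dg T hTg
    have hfJ : ∏ a ∈ T, a ∉ J := prod_notMem hJ1 hprime dg T hTg fun a ha => ((hT a).mp ha).2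
    refine hsplit (∏ a ∈ T, a) (hclosed hf hfJ) ?_
    have h1 := lc_loc hC (∏ a ∈ T, a) (Localization.Away (algebraMap A C (∏ a ∈ T, a)))
    have hh := SetLike.mul_mem_graded hg hf
    exact prime_case hP hJ S hS dg hdg hg T hT hh rfl h1 (hd _ _ hh)
  · push Not at hprime
    obtain ⟨a, b, ⟨γ, ha⟩, ⟨γ', hb⟩, hab, haJ, hbJ⟩ := hprime
    refine hsplit a (hclosed ha haJ) ?_
    have h1 := lc_loc hC a (Localization.Away (algebraMap A C a))
    have h3 : algebraMap A (Localization.Away (algebraMap A C a)) b = 0 := by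
      have h4 : algebraMap A (Localization.Away (algebraMap A C a)) (a * b) = 0 := h1.zero _ hab
      rw [map_mul] at h4
      have h5 : IsUnit (algebraMap A (Localization.Away (algebraMap A C a)) a) := by
        rw [IsScalarTower.algebraMap_apply A C (Localization.Away (algebraMap A C a))]
        exact IsLocalization.Away.algebraMap_isUnit (algebraMap A C a)
      exact h5.mul_right_eq_zero.mp h4
    exact ih _ (lt_sup hbJ) (hsup hb) (δ + γ) (g * a) (SetLike.mul_mem_graded hg ha) _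
      (lc_up h1 b h3)

/-- **Main theorem.** Actions of diagonalizable groups of complexity at most `N`. -/
theorem graded_P [IsNoetherianRing R] (hP : PosD sep P N) {A Γ : Type} [CommRing A] [Algebra R A]
    [Algebra.FiniteType R A] [AddCommGroup Γ] [DecidableEq Γ] (𝒜 : Γ → Submodule R A)
    [GradedAlgebra 𝒜]
    (hd : ∀ (γ : Γ) (f : A), f ∈ 𝒜 γ → ringKrullDim (HomogeneousLocalization.Away 𝒜 f) ≤ N) :
    P (aff R A) :=
  graded_LC hP 𝒜 hd ⊥ (Ideal.IsHomogeneous.bot 𝒜) 0 1 (SetLike.one_mem_graded 𝒜) A (lc_base A)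

end Pool.Agent.U738.CX
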