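import Pool.Agent.U738.CX.Zero
import Pool.Agent.U738.BN.Fam

/-!
# Homogeneous elements of localizations of quotients of graded algebras
-/

set_option autoImplicit false

namespace Pool.Agent.U738.CX

open Pool.Agent.U738.BN DirectSum

variable {R A Γ : Type} [CommRing R] [CommRing A] [Algebra R A] [AddCommGroup Γ] [DecidableEq Γ]
  (𝒜 : Γ → Submodule R A) [GradedAlgebra 𝒜] {J : Ideal A} {h : A} {δ : Γ} {C : Type}
  [CommRing C] [Algebra A C] [Algebra R C] [IsScalarTower R A C]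

/-- The element `x` of `C` is a fraction `a / h ^ k` of degree `γ`. -/
def IsPart (h : A) (δ : Γ) (γ : Γ) (x : C) : Prop :=
  ∃ (k : ℕ) (a : A), a ∈ 𝒜 (γ + k • δ) ∧ x * algebraMap A C h ^ k = algebraMap A C a

variable {𝒜}

omit [Algebra R C] [IsScalarTower R A C] in
lemma IsPart.up (hh : h ∈ 𝒜 δ) {γ : Γ} {x : C} (hx : IsPart 𝒜 h δ γ x) :
    ∃ k0 : ℕ, ∀ k ≥ k0, ∃ a ∈ 𝒜 (γ + k • δ), x * algebraMap A C h ^ k = algebraMap A C a := by
  obtain ⟨k0, a, ha, hx⟩ := hx
  refine ⟨k0, fun k hk => ?_⟩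
  obtain ⟨m, rfl⟩ := Nat.exists_eq_add_of_le hk
  refine ⟨a * h ^ m, ?_, ?_⟩
  · have h1 := SetLike.mul_mem_graded ha (SetLike.pow_mem_graded m hh)
    rwa [add_assoc, ← add_nsmul] at h1
  · rw [pow_add, ← mul_assoc, hx, map_mul, map_pow]

omit [DecidableEq Γ] [GradedAlgebra 𝒜] [Algebra R C] [IsScalarTower R A C] in
lemma isPart_map {a : A} {γ : Γ} (ha : a ∈ 𝒜 γ) : IsPart 𝒜 h δ γ (algebraMap A C a) :=
  ⟨0, a, by rwa [zero_nsmul, add_zero], by rw [pow_zero, mul_one]⟩

/-- the submodule of the elements of degree `γ` -/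
def part (C : Type) [CommRing C] [Algebra A C] [Algebra R C] [IsScalarTower R A C] (hh : h ∈ 𝒜 δ)
    (γ : Γ) : Submodule R C where
  carrier := {x | IsPart 𝒜 h δ γ x}
  add_mem' := by
    intro x y hx hy
    obtain ⟨k1, h1⟩ := hx.up hh
    obtain ⟨k2, h2⟩ := hy.up hh
    obtain ⟨a, ha, hx⟩ := h1 (k1 + k2) (by omega)
    obtain ⟨b, hb, hy⟩ := h2 (k1 + k2) (by omega)
    exact ⟨k1 + k2, a + b, Submodule.add_mem _ ha hb, by rw [add_mul, hx, hy, map_add]⟩
  zero_mem' := ⟨0, 0, Submodule.zero_mem _, by rw [zero_mul, map_zero]⟩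
  smul_mem' := by
    rintro r x ⟨k, a, ha, hx⟩
    refine ⟨k, r • a, Submodule.smul_mem _ r ha, ?_⟩
    rw [smul_mul_assoc, hx]
    exact (map_smul (IsScalarTower.toAlgHom R A C) r a).symm

lemma mem_part {hh : h ∈ 𝒜 δ} {γ : Γ} {x : C} : x ∈ part C hh γ ↔ IsPart 𝒜 h δ γ x := Iff.rfl

/-- the homogeneous components of an element of a homogeneous ideal -/
lemma sum_mem_ideal (hJ : J.IsHomogeneous 𝒜) (s : Finset Γ) (f : Γ → Γ) (hf : Function.Injective f)
    (a : Γ → A) (ha : ∀ γ ∈ s, a γ ∈ 𝒜 (f γ)) (hs : ∑ γ ∈ s, a γ ∈ J) : ∀ γ ∈ s, a γ ∈ J := by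
  intro γ hγ
  have h1 := hJ (f γ) hs
  have h2 : GradedAlgebra.proj 𝒜 (f γ) (∑ γ ∈ s, a γ) = a γ := by
    rw [map_sum, Finset.sum_eq_single γ]
    · rw [GradedAlgebra.proj_apply, DirectSum.decompose_of_mem_same 𝒜 (ha γ hγ)]
    · intro γ' hγ' hne
      rw [GradedAlgebra.proj_apply]
      exact DirectSum.decompose_of_mem_ne 𝒜 (ha γ' hγ') fun e => hne (hf e)
    · intro hn
      exact absurd hγ hn
  rw [GradedAlgebra.proj_apply] at h2
  rwa [h2] at h1

/-- the parts are independent -/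
theorem isGr_part (hC : LC J h C) (hJ : J.IsHomogeneous 𝒜) (hh : h ∈ 𝒜 δ) : IsGr (part C hh) where
  one := ⟨0, 1, by
    rw [zero_nsmul, add_zero]
    exact SetLike.one_mem_graded 𝒜, by rw [pow_zero, mul_one, map_one]⟩
  mul := by
    rintro γ γ' x y ⟨k, a, ha, hx⟩ ⟨l, b, hb, hy⟩
    refine ⟨k + l, a * b, ?_, ?_⟩
    · have h1 := SetLike.mul_mem_graded ha hb
      have e : γ + k • δ + (γ' + l • δ) = γ + γ' + (k + l) • δ := by
        rw [add_nsmul]
        abel
      rwa [e] at h1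
    · rw [map_mul, ← hx, ← hy, pow_add]
      ring
  indep := by
    classical
    intro s x hx h0
    have h1 : ∀ γ : Γ, ∃ k0 : ℕ, γ ∈ s → ∀ k ≥ k0, ∃ a ∈ 𝒜 (γ + k • δ),
        x γ * algebraMap A C h ^ k = algebraMap A C a := by
      intro γ
      by_cases hγ : γ ∈ s
      · obtain ⟨k0, h2⟩ := (hx γ hγ : IsPart 𝒜 h δ γ (x γ)).up hh
        exact ⟨k0, fun _ => h2⟩
      · exact ⟨0, fun h => absurd h hγ⟩
    choose k0 hk0 using h1
    let K := s.sup k0
    have h2 : ∀ γ : Γ, ∃ a : A, γ ∈ s → a ∈ 𝒜 (γ + K • δ) ∧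
        x γ * algebraMap A C h ^ K = algebraMap A C a := by
      intro γ
      by_cases hγ : γ ∈ s
      · obtain ⟨a, ha, h3⟩ := hk0 γ hγ K (Finset.le_sup hγ)
        exact ⟨a, fun _ => ⟨ha, h3⟩⟩
      · exact ⟨0, fun h => absurd h hγ⟩
    choose a ha using h2
    have h3 : algebraMap A C (∑ γ ∈ s, a γ) = 0 := by
      rw [map_sum]
      have h4 : ∑ γ ∈ s, algebraMap A C (a γ) = ∑ γ ∈ s, x γ * algebraMap A C h ^ K :=
        Finset.sum_congr rfl fun γ hγ => (ha γ hγ).2.symm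
      rw [h4, ← Finset.sum_mul, h0, zero_mul]
    obtain ⟨m, hm⟩ := hC.ker _ h3
    rw [Finset.mul_sum] at hm
    have h4 := sum_mem_ideal hJ s (fun γ => γ + (K + m) • δ) (add_left_injective _)
      (fun γ => h ^ m * a γ) (fun γ hγ => by
        have h5 := SetLike.mul_mem_graded (ha γ hγ).1 (SetLike.pow_mem_graded m hh)
        rw [add_assoc, ← add_nsmul, mul_comm] at h5
        exact h5) hm
    intro γ hγ
    have h5 := hC.zero _ (h4 γ hγ)
    rw [map_mul, map_pow, ← (ha γ hγ).2] at h5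
    have h6 := (hC.unit.pow m).mul_right_eq_zero.mp h5
    exact (hC.unit.pow K).mul_left_eq_zero.mp h6

/-- The dimension of the part of degree zero. -/
lemma dim_zeroPart (hC : LC J h C) (hJ : J.IsHomogeneous 𝒜) (hh : h ∈ 𝒜 δ) :
    ringKrullDim (zeroPart (isGr_part hC hJ hh)) ≤
      ringKrullDim (HomogeneousLocalization.Away 𝒜 h) := by
  let φ : Localization.Away h →+* C :=
    IsLocalization.Away.lift (S := Localization.Away h) h (g := algebraMap A C) hC.unit
  have hφ : ∀ a, φ (algebraMap A _ a) = algebraMap A C a := fun a =>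
    IsLocalization.Away.lift_eq h hC.unit a
  have hval : ∀ (n : ℕ) (a : A) (ha : a ∈ 𝒜 (n • δ)),
      φ (HomogeneousLocalization.Away.mk 𝒜 hh n a ha).val * algebraMap A C h ^ n =
        algebraMap A C a := by
    intro n a ha
    let y : Submonoid.powers h := ⟨h ^ n, ⟨n, rfl⟩⟩
    have h1 : (Localization.mk a y : Localization.Away h) *
        algebraMap A (Localization.Away h) (h ^ n) = algebraMap A (Localization.Away h) a := by
      rw [Localization.mk_eq_mk']
      exact IsLocalization.mk'_spec (Localization.Away h) a y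
    rw [HomogeneousLocalization.Away.val_mk, ← hφ h, ← hφ a, ← h1, ← map_pow, ← map_pow, ← map_mul]
  let ψ : HomogeneousLocalization.Away 𝒜 h →+* zeroPart (isGr_part hC hJ hh) :=
    (φ.comp (algebraMap _ (Localization.Away h))).codRestrict (zeroPart (isGr_part hC hJ hh))
      (by
        intro x
        obtain ⟨n, a, ha, rfl⟩ := HomogeneousLocalization.Away.mk_surjective 𝒜 hh x
        exact ⟨n, a, by rwa [zero_add], hval n a ha⟩)
  refine ringKrullDim_le_of_surjective ψ ?_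
  rintro ⟨x, k, a, ha, hx⟩
  rw [zero_add] at ha
  refine ⟨HomogeneousLocalization.Away.mk 𝒜 hh k a ha, ?_⟩
  apply Subtype.ext
  change φ (HomogeneousLocalization.Away.mk 𝒜 hh k a ha).val = x
  have h1 := hval k a ha
  rw [← hx] at h1
  exact (hC.unit.pow k).mul_left_injective h1

end Pool.Agent.U738.CX
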