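import Pool.Agent.U738.CX.Gr

/-!
# The part of degree zero is of finite type
-/

set_option autoImplicit false

namespace Pool.Agent.U738.CX

open Pool.Agent.U738.BN

/-- Subgroups of finitely generated commutative groups are finitely generated. -/
lemma fg_of_le {G : Type} [CommGroup G] {V W : Subgroup G} (h : W ≤ V) (hV : Group.FG V) :
    Group.FG W := by
  have h1 : AddGroup.FG (Additive V) := GroupFG.iff_add_fg.mp hV
  have h2 : Module.Finite ℤ (Additive V) := Module.Finite.iff_addGroup_fg.mpr h1
  have h3 : IsNoetherian ℤ (Additive V) := isNoetherian_of_isNoetherianRing_of_finite ℤ (Additive V)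
  let f : Additive W →+ Additive V := MonoidHom.toAdditive (Subgroup.inclusion h)
  have hf : Function.Injective f := Subgroup.inclusion_injective h
  have h4 : Module.Finite ℤ (Additive W) :=
    Module.Finite.of_injective f.toIntLinearMap hf
  exact GroupFG.iff_add_fg.mpr (Module.Finite.iff_addGroup_fg.mp h4)

variable {R C Γ : Type} [CommRing R] [CommRing C] [Algebra R C] [AddCommGroup Γ]
  {p : Γ → Submodule R C} (hp : IsGr p) (V : Subgroup Cˣ)

include hp

/-- the elements of `V` of degree zero -/
noncomputable def V0 : Subgroup Cˣ := V ⊓ (zeroU hp).range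

/-- the inclusion -/
noncomputable def v0Map : V0 hp V →* zeroPart hp where
  toFun v := ⟨((v : Cˣ) : C), by
    obtain ⟨c, hc⟩ := v.2.2
    have h := (zeroU_mem hp c).1
    rw [hc] at h
    exact h⟩
  map_one' := rfl
  map_mul' _ _ := rfl

variable (hV : V ≤ homU hp)

include hV in
lemma split_sum (hs : Submodule.span R {x : C | ∃ v ∈ V, (v : C) = x} = ⊤) (y : C) :
    ∃ (y0 : MonoidAlgebra R (V0 hp V)) (s : Finset Γ) (z : Γ → C), 0 ∉ s ∧ (∀ γ ∈ s, z γ ∈ p γ) ∧
      y = ((MonoidAlgebra.lift R (zeroPart hp) (V0 hp V) (v0Map hp V) y0 : zeroPart hp) : C) +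
        ∑ γ ∈ s, z γ := by
  classical
  have hy : y ∈ Submodule.span R {x : C | ∃ v ∈ V, (v : C) = x} := by
    rw [hs]
    trivial
  induction hy using Submodule.span_induction with
  | mem y h =>
    obtain ⟨v, hv, rfl⟩ := h
    obtain ⟨γ, h1, h2⟩ := hV hv
    by_cases hγ : γ = 0
    · subst hγ
      rw [neg_zero] at h2
      obtain ⟨c, hc⟩ := exists_zeroU hp v h1 h2
      refine ⟨MonoidAlgebra.of R _ ⟨v, hv, c, hc⟩, ∅, 0, Finset.notMem_empty _, ?_, ?_⟩
      · intro γ hγ
        exact absurd hγ (Finset.notMem_empty _)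
      · rw [MonoidAlgebra.lift_of, Finset.sum_empty, add_zero]
        rfl
    · refine ⟨0, {γ}, fun _ => v, ?_, ?_, ?_⟩
      · rw [Finset.mem_singleton]
        exact fun h => hγ h.symm
      · intro γ' hγ'
        rw [Finset.mem_singleton.mp hγ']
        exact h1
      · rw [map_zero, Finset.sum_singleton]
        exact (zero_add _).symm
  | zero =>
    refine ⟨0, ∅, 0, Finset.notMem_empty _, ?_, ?_⟩
    · intro γ hγ
      exact absurd hγ (Finset.notMem_empty _)
    · rw [map_zero, Finset.sum_empty]
      exact (zero_add _).symm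
  | add x y _ _ hx hy =>
    obtain ⟨x0, s, z, h1, h2, h3⟩ := hx
    obtain ⟨y0, s', z', h1', h2', h3'⟩ := hy
    refine ⟨x0 + y0, s ∪ s', fun γ => (if γ ∈ s then z γ else 0) + (if γ ∈ s' then z' γ else 0),
      ?_, ?_, ?_⟩
    · rw [Finset.mem_union, not_or]
      exact ⟨h1, h1'⟩
    · intro γ _
      refine Submodule.add_mem _ ?_ ?_
      · split_ifs with h
        · exact h2 γ h
        · exact Submodule.zero_mem _
      · split_ifs with h
        · exact h2' γ h
        · exact Submodule.zero_mem _
    · rw [Finset.sum_add_distrib, Finset.sum_ite_mem, Finset.sum_ite_mem,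
        Finset.union_inter_cancel_left, Finset.union_inter_cancel_right, h3, h3', map_add,
        Subalgebra.coe_add]
      ring
  | smul r x _ hx =>
    obtain ⟨x0, s, z, h1, h2, h3⟩ := hx
    refine ⟨r • x0, s, fun γ => r • z γ, h1, fun γ hγ => Submodule.smul_mem _ r (h2 γ hγ), ?_⟩
    rw [h3, smul_add, Finset.smul_sum, map_smul, Subalgebra.coe_smul]

include hV in
/-- The part of degree zero is of finite type. -/
theorem ft_zeroPart (hs : Submodule.span R {x : C | ∃ v ∈ V, (v : C) = x} = ⊤)
    (hfg : Group.FG V) : Algebra.FiniteType R (zeroPart hp) := by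
  classical
  have h1 : Group.FG (V0 hp V) := fg_of_le inf_le_left hfg
  have h2 : Monoid.FG (V0 hp V) := Group.fg_iff_monoid_fg.mp h1
  have h3 : Algebra.FiniteType R (MonoidAlgebra R (V0 hp V)) := MonoidAlgebra.finiteType_of_fg
  refine Algebra.FiniteType.of_surjective
    (MonoidAlgebra.lift R (zeroPart hp) (V0 hp V) (v0Map hp V)) ?_
  intro b
  obtain ⟨y0, s, z, h4, h5, h6⟩ := split_sum hp V hV hs (b : C)
  refine ⟨y0, ?_⟩
  set b0 := MonoidAlgebra.lift R (zeroPart hp) (V0 hp V) (v0Map hp V) y0 with hb0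
  have h7 := hp.indep (insert 0 s) (fun γ => if γ = 0 then ((b0 - b : zeroPart hp) : C) else z γ)
    (by
      intro γ hγ
      split_ifs with h
      · subst h
        exact (b0 - b).2
      · rcases Finset.mem_insert.mp hγ with h8 | h8
        · exact absurd h8 h
        · exact h5 γ h8) (by
      rw [Finset.sum_insert h4, if_pos rfl]
      have h9 : ∑ γ ∈ s, (if γ = 0 then ((b0 - b : zeroPart hp) : C) else z γ) =
          ∑ γ ∈ s, z γ := by
        refine Finset.sum_congr rfl fun γ hγ => if_neg ?_
        rintro rfl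
        exact h4 hγ
      rw [h9, Subalgebra.coe_sub, h6]
      ring) 0 (Finset.mem_insert_self 0 s)
  rw [if_pos rfl] at h7
  have h8 : b0 - b = 0 := Subtype.ext h7
  exact sub_eq_zero.mp h8

end Pool.Agent.U738.CX
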